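import Pool.Agent.Helper10.GO.GoalsT

/-!
MP_6af536_nt (project GO), packet GENB: one formula for the iterate along a generic progression.
-/

set_option autoImplicit false

open MvPolynomial Filter Topology

noncomputable section

namespace Pool.Agent.Helper98.GO

open Pool.Agent.Helper10.GO Pool.Agent.Helper80.HD Pool.Agent.Helper80.AD

section

variable {K : Type} [Field K] [Algebra K ℂ] {N : ℕ}

theorem scl {P : MvPolynomial (Fin (N + 1)) K} {d : ℕ} (hP : P.IsHomogeneous d) (a : ℂ)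
    (x : Fin (N + 1) → ℂ) : aeval (fun j => a * x j) P = a ^ d * aeval x P := by
  rw [aeval_def, aeval_def, eval₂_eq', eval₂_eq', Finset.mul_sum]
  refine Finset.sum_congr rfl fun s hs => ?_
  have h1 : ∑ i, s i = d := by
    have h2 := hP (mem_support_iff.1 hs)
    have h4 : Finsupp.degree s = d := by
      rw [Finsupp.degree_eq_weight_one]
      exact h2
    rw [Finsupp.degree_eq_sum] at h4
    exact h4
  have h3 : ∏ i, (a * x i) ^ s i = a ^ d * ∏ i, x i ^ s i := by
    rw [← h1, ← Finset.prod_pow_eq_pow_sum, ← Finset.prod_mul_distrib]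
    exact Finset.prod_congr rfl fun i _ => mul_pow _ _ _
  rw [h3]
  ring

/-- `z` is generic with the point `η`. -/
def Gn (K : Type) [Field K] [Algebra K ℂ] {N : ℕ} (z : ℕ → Fin (N + 1) → ℂ)
    (η : Fin (N + 1) → ℂ) : Prop :=
  ∀ (d : ℕ) (E : MvPolynomial (Fin (N + 1)) K), E.IsHomogeneous d →
    (aeval η E = 0 → ∀ᶠ n in atTop, aeval (z n) E = 0) ∧
    (aeval η E ≠ 0 → ∀ᶠ n in atTop, aeval (z n) E ≠ 0)

theorem Gn.of_freq {z : ℕ → Fin (N + 1) → ℂ} {η : Fin (N + 1) → ℂ} (h : Gn K z η) {d : ℕ}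
    {E : MvPolynomial (Fin (N + 1)) K} (hE : E.IsHomogeneous d)
    (hf : ∃ᶠ n in atTop, aeval (z n) E ≠ 0) : ∀ᶠ n in atTop, aeval (z n) E ≠ 0 := by
  apply (h d E hE).2
  intro h0
  exact hf (((h d E hE).1 h0).mono fun n hn => not_not.2 hn)

/-- The composition of a form with a tuple of forms, at points where the tuple takes a known value. -/
theorem comp_val {Γ : Fin (N + 1) → MvPolynomial (Fin (N + 1)) K} {u v : Fin (N + 1) → ℂ} {c : ℂ}
    (h : ∀ j, aeval u (Γ j) = c * v j) {d : ℕ} {E : MvPolynomial (Fin (N + 1)) K}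
    (hE : E.IsHomogeneous d) : aeval u (aeval Γ E) = c ^ d * aeval v E := by
  rw [comp_aeval_apply, ← scl hE]
  congr 1
  congr 1
  funext j
  exact h j

theorem mem_orbit {f : QMap K N} {x : ℕ → Fin (N + 1) → ℂ} (hx : f.IsOrbit x) (n : ℕ) :
    f.Mem (x n) := by
  induction n with
  | zero => exact hx.1
  | succ n ih =>
    obtain ⟨hy, l, c, hc, h⟩ := hx.2 n
    refine ⟨hy, fun E hE => ?_⟩
    obtain ⟨d, hd⟩ := f.eqs_homog E hE
    have h1 := f.maps (x n) ih.1 ih.2 l E hE
    have h2 : (fun j => aeval (x n) (f.G l j)) = fun j => c * x (n + 1) j := funext h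
    rw [h2, scl hd] at h1
    exact (mul_eq_zero.1 h1).resolve_left (pow_ne_zero _ hc)

/-- If one coordinate of a formula does not vanish, then the formula represents the map. -/
theorem formula_ok {f : QMap K N} {x y : Fin (N + 1) → ℂ} (hx : f.Mem x) (hy : f.IsImage x y)
    (l : Fin f.r) (j : Fin (N + 1)) (h : aeval x (f.G l j) ≠ 0) :
    ∃ c : ℂ, c ≠ 0 ∧ ∀ i, aeval x (f.G l i) = c * y i := by
  obtain ⟨hy0, l', c', hc', h'⟩ := hy
  have key : ∀ i, aeval x (f.G l i) * y j = aeval x (f.G l j) * y i := by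
    intro i
    have h1 := f.agree x hx.1 hx.2 l l' i j
    rw [h' j, h' i] at h1
    have h2 : c' * (aeval x (f.G l i) * y j) = c' * (aeval x (f.G l j) * y i) := by
      linear_combination h1
    exact mul_left_cancel₀ hc' h2
  have hyj : y j ≠ 0 := by
    intro h0
    apply hy0
    funext i
    have h1 := key i
    rw [h0, mul_zero] at h1
    exact ((mul_eq_zero.1 h1.symm).resolve_left h)
  refine ⟨aeval x (f.G l j) / y j, div_ne_zero h hyj, fun i => ?_⟩
  have h1 := key i
  field_simp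
  linear_combination h1

/-- The iterate is represented by one tuple of forms along a generic sequence. -/
theorem iter_formula {f : QMap K N} {x : ℕ → Fin (N + 1) → ℂ} (hx : f.IsOrbit x) (a b : ℕ)
    {ξ₀ : Fin (N + 1) → ℂ} (hg : Gn K (fun n => x (a * n + b)) ξ₀) (m : ℕ) :
    ∃ (e : ℕ) (Γ : Fin (N + 1) → MvPolynomial (Fin (N + 1)) K), (∀ j, (Γ j).IsHomogeneous e) ∧
      ∀ᶠ n in atTop, ∃ c : ℂ, c ≠ 0 ∧ ∀ j, aeval (x (a * n + b)) (Γ j) = c * x (a * n + b + m) j := by
  induction m with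
  | zero =>
    refine ⟨1, X, fun j => isHomogeneous_X K j, Eventually.of_forall fun n => ?_⟩
    refine ⟨1, one_ne_zero, fun j => ?_⟩
    rw [aeval_X, one_mul, add_zero]
  | succ m ih =>
    obtain ⟨e, Γ, hΓ, hev⟩ := ih
    have hfr : ∃ p : Fin f.r × Fin (N + 1), ∃ᶠ n in atTop,
        aeval (x (a * n + b + m)) (f.G p.1 p.2) ≠ 0 := by
      by_contra hcon
      push Not at hcon
      have hall : ∀ᶠ n in atTop, ∀ p : Fin f.r × Fin (N + 1),
          aeval (x (a * n + b + m)) (f.G p.1 p.2) = 0 := by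
        rw [eventually_all]
        intro p
        exact hcon p
      obtain ⟨n, hn⟩ := hall.exists
      obtain ⟨hy, l, c, hc, h⟩ := hx.2 (a * n + b + m)
      apply hy
      funext i
      have h1 := h i
      rw [hn (l, i)] at h1
      exact (mul_eq_zero.1 h1.symm).resolve_left hc
    obtain ⟨⟨l, j⟩, hlj⟩ := hfr
    have hE : (aeval Γ (f.G l j)).IsHomogeneous (e * f.deg l) :=
      (f.G_homog l j).aeval _ hΓ
    have hfE : ∃ᶠ n in atTop, aeval (x (a * n + b)) (aeval Γ (f.G l j)) ≠ 0 := by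
      refine (hlj.and_eventually hev).mono ?_
      rintro n ⟨h1, c, hc, h2⟩
      rw [comp_val h2 (f.G_homog l j)]
      exact mul_ne_zero (pow_ne_zero _ hc) h1
    have hevE := hg.of_freq hE hfE
    refine ⟨e * f.deg l, fun i => aeval Γ (f.G l i), fun i => (f.G_homog l i).aeval _ hΓ, ?_⟩
    filter_upwards [hev, hevE] with n h1 h2
    obtain ⟨c, hc, h3⟩ := h1
    rw [comp_val h3 (f.G_homog l j)] at h2
    have h4 := right_ne_zero_of_mul h2
    obtain ⟨c', hc', h5⟩ := formula_ok (mem_orbit hx (a * n + b + m)) (hx.2 (a * n + b + m)) l j h4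
    refine ⟨c ^ f.deg l * c', mul_ne_zero (pow_ne_zero _ hc) hc', fun i => ?_⟩
    rw [comp_val h3 (f.G_homog l i), h5 i, mul_assoc]
    rfl

/-- The orbit of the point. -/
def orb (Γ : Fin (N + 1) → MvPolynomial (Fin (N + 1)) K) (ξ₀ : Fin (N + 1) → ℂ) :
    ℕ → Fin (N + 1) → ℂ
  | 0 => ξ₀
  | (n + 1) => fun j => aeval (orb Γ ξ₀ n) (Γ j)

end

/-- **Packet GENB.** -/
theorem genb : S_GENB := by
  intro K _ _ N f x a b ξ₀ hx ha h0 hg
  obtain ⟨e, Γ, hΓ, hev⟩ := iter_formula hx a b (ξ₀ := ξ₀) hg a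
  obtain ⟨i₀, hi₀⟩ : ∃ i, ξ₀ i ≠ 0 := by
    by_contra hcon
    push Not at hcon
    exact h0 (funext hcon)
  have hi : ∀ᶠ n in atTop, x (a * n + b) i₀ ≠ 0 := by
    have := (hg 1 (X i₀) (isHomogeneous_X K i₀)).2 (by rwa [aeval_X])
    refine this.mono fun n hn => ?_
    rwa [aeval_X] at hn
  set G : Fin (N + 1) → MvPolynomial (Fin (N + 1)) K := fun j => X i₀ * Γ j with hG
  have hGh : ∀ j, (G j).IsHomogeneous (1 + e) := fun j => (isHomogeneous_X K i₀).mul (hΓ j)
  have hstep : ∀ᶠ n in atTop, ∃ c : ℂ, c ≠ 0 ∧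
      ∀ j, aeval (x (a * n + b)) (G j) = c * x (a * (n + 1) + b) j := by
    filter_upwards [hev, hi] with n h1 h2
    obtain ⟨c, hc, h3⟩ := h1
    refine ⟨x (a * n + b) i₀ * c, mul_ne_zero h2 hc, fun j => ?_⟩
    have e1 : a * (n + 1) + b = a * n + b + a := by ring
    rw [e1, hG, map_mul, aeval_X, h3 j]
    ring
  -- the case of one step
  have hone : ∀ (d : ℕ) (E : MvPolynomial (Fin (N + 1)) K), E.IsHomogeneous d →
      (aeval ξ₀ (aeval G E) = 0 ↔ aeval ξ₀ E = 0) := by
    intro d E hE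
    have hc : (aeval G E).IsHomogeneous ((1 + e) * d) := hE.aeval _ hGh
    constructor
    · intro h1
      by_contra h2
      have h3 := (hg d E hE).2 h2
      have h4 : ∀ᶠ n in atTop, aeval (x (a * (n + 1) + b)) E ≠ 0 :=
        (tendsto_add_atTop_nat 1).eventually h3
      have h5 := (hg _ _ hc).1 h1
      obtain ⟨n, hn4, hn5, c, hcc, hn⟩ := (h4.and (h5.and hstep)).exists
      rw [comp_val hn hE] at hn5
      exact mul_ne_zero (pow_ne_zero _ hcc) hn4 hn5
    · intro h1
      by_contra h2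
      have h3 := (hg d E hE).1 h1
      have h4 : ∀ᶠ n in atTop, aeval (x (a * (n + 1) + b)) E = 0 :=
        (tendsto_add_atTop_nat 1).eventually h3
      have h5 := (hg _ _ hc).2 h2
      obtain ⟨n, hn4, hn5, c, hcc, hn⟩ := (h4.and (h5.and hstep)).exists
      rw [comp_val hn hE, hn4, mul_zero] at hn5
      exact hn5 rfl
  have hsame : ∀ (n d : ℕ) (E : MvPolynomial (Fin (N + 1)) K), E.IsHomogeneous d →
      (aeval (orb G ξ₀ n) E = 0 ↔ aeval ξ₀ E = 0) := by
    intro n
    induction n with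
    | zero => intro d E _; exact Iff.rfl
    | succ n ih =>
      intro d E hE
      have hc : (aeval G E).IsHomogeneous ((1 + e) * d) := hE.aeval _ hGh
      have e1 : aeval (orb G ξ₀ (n + 1)) E = aeval (orb G ξ₀ n) (aeval G E) := by
        rw [comp_aeval_apply]
        rfl
      rw [e1, ih _ _ hc]
      exact hone d E hE
  refine ⟨1 + e, G, orb G ξ₀, rfl, ?_⟩
  refine ⟨⟨Nat.le_add_right 1 e, hGh, fun n j => rfl, h0, ?_⟩, ?_, ?_, hstep⟩
  · intro n d E hE
    exact hsame n d E hE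
  · intro d E hE h1
    exact (hg d E hE).1 h1
  · intro d E hE h1
    exact (hg d E hE).2 h1

end Pool.Agent.Helper98.GO
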