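import Pool.Agent.Helper10.GO.GoalsA

/-!
MP_6af536_nt (project GO), packet UPG: the growth of the powers of a subspace, upper bound.
-/

namespace Pool.Agent.Helper98.GO

open MvPolynomial Filter Topology
open scoped Pointwise

section

variable {K L : Type} [Field K] [Field L] [Algebra K L] {s n : ℕ}

/-- The exponents with all entries at most `m`. -/
def box (s m : ℕ) : Set (Fin s →₀ ℕ) := {f | ∀ i, f i ≤ m}

theorem box_add (s m m' : ℕ) : box s m + box s m' ⊆ box s (m + m') := by
  rintro _ ⟨a, ha, b, hb, rfl⟩ i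
  exact add_le_add (ha i) (hb i)

instance (s m : ℕ) : Finite (box s m) := by
  let e : box s m → (Fin s → Fin (m + 1)) := fun f i => ⟨f.1 i, Nat.lt_succ_of_le (f.2 i)⟩
  refine Finite.of_injective e ?_
  intro f g h
  apply Subtype.ext
  ext i
  have := congrFun h i
  simpa [e] using this

theorem card_box (s m : ℕ) : Nat.card (box s m) ≤ (m + 1) ^ s := by
  let e : box s m → (Fin s → Fin (m + 1)) := fun f i => ⟨f.1 i, Nat.lt_succ_of_le (f.2 i)⟩
  have he : Function.Injective e := by
    intro f g h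
    apply Subtype.ext
    ext i
    have := congrFun h i
    simpa [e] using this
  have h := Nat.card_le_card_of_injective e he
  simpa using h

/-- The polynomials with exponents at most `m`. -/
noncomputable abbrev RS (K : Type) [Field K] (s m : ℕ) : Submodule K (MvPolynomial (Fin s) K) :=
  restrictSupport K (box s m)

instance (s m : ℕ) : Module.Finite K (RS K s m) :=
  Module.Finite.of_basis (basisRestrictSupport K (box s m))

theorem finrank_RS (s m : ℕ) : Module.finrank K (RS K s m) ≤ (m + 1) ^ s := by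
  rw [Module.finrank_eq_nat_card_basis (basisRestrictSupport K (box s m))]
  exact card_box s m

theorem RS_mul {m m' : ℕ} {P Q : MvPolynomial (Fin s) K} (hP : P ∈ RS K s m)
    (hQ : Q ∈ RS K s m') : P * Q ∈ RS K s (m + m') := by
  have h : P * Q ∈ restrictSupport K (box s m + box s m') := by
    rw [restrictSupport_add]
    exact Submodule.mul_mem_mul hP hQ
  exact restrictSupport_mono K (box_add s m m') h

theorem RS_mono {m m' : ℕ} (h : m ≤ m') : RS K s m ≤ RS K s m' :=
  restrictSupport_mono K fun _ hf i => (hf i).trans h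

theorem exists_RS (P : MvPolynomial (Fin s) K) : ∃ m, P ∈ RS K s m := by
  refine ⟨P.totalDegree, ?_⟩
  rw [mem_restrictSupport_iff]
  intro f hf i
  exact (Finsupp.le_degree i f).trans (le_totalDegree hf)

/-- The linear map. -/
noncomputable def Phi (φ : MvPolynomial (Fin s) K →ₐ[K] L) (ω : Fin n → L) (m : ℕ) :
    (Fin n → RS K s m) →ₗ[K] L where
  toFun P := ∑ l, φ (P l) * ω l
  map_add' P Q := by
    simp only [Pi.add_apply, Submodule.coe_add, map_add, add_mul, Finset.sum_add_distrib]
  map_smul' c P := by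
    simp only [Pi.smul_apply, Submodule.coe_smul, map_smul, smul_mul_assoc, Finset.smul_sum,
      RingHom.id_apply]

theorem mem_range {φ : MvPolynomial (Fin s) K →ₐ[K] L} {ω : Fin n → L} {m : ℕ} {a : L} :
    a ∈ LinearMap.range (Phi φ ω m) ↔
      ∃ P : Fin n → MvPolynomial (Fin s) K, (∀ l, P l ∈ RS K s m) ∧ ∑ l, φ (P l) * ω l = a := by
  constructor
  · rintro ⟨P, rfl⟩
    exact ⟨fun l => P l, fun l => (P l).2, rfl⟩
  · rintro ⟨P, hP, rfl⟩
    exact ⟨fun l => ⟨P l, hP l⟩, rfl⟩

theorem range_mono {φ : MvPolynomial (Fin s) K →ₐ[K] L} {ω : Fin n → L} {m m' : ℕ}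
    (h : m ≤ m') : LinearMap.range (Phi φ ω m) ≤ LinearMap.range (Phi φ ω m') := by
  intro a ha
  rw [mem_range] at ha ⊢
  obtain ⟨P, hP, rfl⟩ := ha
  exact ⟨P, fun l => RS_mono h (hP l), rfl⟩

theorem range_mul {φ : MvPolynomial (Fin s) K →ₐ[K] L} {ω : Fin n → L} {m D : ℕ} {a y : L}
    (ha : a ∈ LinearMap.range (Phi φ ω m)) (hy : ∀ l, y * ω l ∈ LinearMap.range (Phi φ ω D)) :
    a * y ∈ LinearMap.range (Phi φ ω (m + D)) := by
  rw [mem_range] at ha
  obtain ⟨P, hP, rfl⟩ := ha
  rw [Finset.sum_mul]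
  refine Submodule.sum_mem _ fun l _ => ?_
  have h1 := hy l
  rw [mem_range] at h1
  obtain ⟨Q, hQ, hQs⟩ := h1
  rw [mem_range]
  refine ⟨fun l' => P l * Q l', fun l' => RS_mul (hP l) (hQ l'), ?_⟩
  calc ∑ l', φ (P l * Q l') * ω l' = φ (P l) * ∑ l', φ (Q l') * ω l' := by
        rw [Finset.mul_sum]
        refine Finset.sum_congr rfl fun l' _ => ?_
        rw [map_mul, mul_assoc]
    _ = φ (P l) * ω l * y := by rw [hQs]; ring

theorem finrank_range (φ : MvPolynomial (Fin s) K →ₐ[K] L) (ω : Fin n → L) (m : ℕ) :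
    Module.finrank K (LinearMap.range (Phi φ ω m)) ≤ n * (m + 1) ^ s := by
  refine (LinearMap.finrank_range_le _).trans ?_
  rw [Module.finrank_pi_fintype]
  refine (Finset.sum_le_card_nsmul _ _ _ fun l _ => finrank_RS s m).trans ?_
  simp

end

/-- Packet UPG. -/
theorem upg : Pool.Agent.Helper10.GO.S_UPG := by
  intro K L _ _ _ Y d hY h1 hd
  classical
  obtain ⟨S, hS⟩ := hY
  set A : Subalgebra K L := Algebra.adjoin K (Y : Set L) with hA
  have hAS : A = Algebra.adjoin K (S : Set L) := by
    rw [hA, ← hS, Algebra.adjoin_span]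
  have hfg : A.FG := ⟨S, hAS.symm⟩
  have : Algebra.FiniteType K A := (Subalgebra.fg_iff_finiteType A).1 hfg
  obtain ⟨s, g, hg, hgf⟩ := exists_finite_inj_algHom_of_fg K A
  have hω : ∃ (n : ℕ) (ω : Fin n → A), ∀ a : A, ∃ c : Fin n → MvPolynomial (Fin s) K,
      ∑ l, g (c l) * ω l = a := by
    let _ : Algebra (MvPolynomial (Fin s) K) A := g.toRingHom.toAlgebra
    have : Module.Finite (MvPolynomial (Fin s) K) A := hgf
    obtain ⟨n, ω, h⟩ := Module.Finite.exists_fin (R := MvPolynomial (Fin s) K) (M := A)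
    refine ⟨n, ω, fun a => ?_⟩
    have ha : a ∈ Submodule.span (MvPolynomial (Fin s) K) (Set.range ω) := by
      rw [h]; trivial
    rw [Submodule.mem_span_range_iff_exists_fun] at ha
    obtain ⟨c, hc⟩ := ha
    exact ⟨c, hc⟩
  obtain ⟨n, ω, hω⟩ := hω
  -- the number of variables
  have hsd : s ≤ d := by
    have hle : ∀ a : A, (a : L) ∈ IntermediateField.adjoin K (Y : Set L) := fun a =>
      IntermediateField.algebra_adjoin_le_adjoin K (Y : Set L) a.2
    let j : A →ₐ[K] IntermediateField.adjoin K (Y : Set L) :=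
      Subalgebra.inclusion (T := (IntermediateField.adjoin K (Y : Set L)).toSubalgebra)
        (IntermediateField.algebra_adjoin_le_adjoin K (Y : Set L))
    have hj : Function.Injective j := Subalgebra.inclusion_injective _
    have hind : AlgebraicIndependent K (fun i : Fin s => j (g (X i))) := by
      unfold AlgebraicIndependent
      have h2 : aeval (fun i : Fin s => j (g (X i))) = j.comp g := by
        apply MvPolynomial.algHom_ext
        intro i
        simp
      rw [h2]
      exact hj.comp hg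
    have h3 := hind.cardinalMk_le_trdeg
    rw [hd, Cardinal.mk_fin] at h3
    exact_mod_cast h3
  set φ : MvPolynomial (Fin s) K →ₐ[K] L := A.val.comp g with hφ
  set ω' : Fin n → L := fun l => (ω l : L) with hω'
  have hmem : ∀ a : L, a ∈ A → ∃ m, a ∈ LinearMap.range (Phi φ ω' m) := by
    intro a ha
    obtain ⟨c, hc⟩ := hω ⟨a, ha⟩
    choose m hm using fun l => exists_RS (c l)
    refine ⟨∑ l, m l, ?_⟩
    rw [mem_range]
    refine ⟨c, fun l => RS_mono (Finset.single_le_sum (fun _ _ => Nat.zero_le _)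
      (Finset.mem_univ l)) (hm l), ?_⟩
    have h2 := congrArg (A.val) hc
    rw [map_sum] at h2
    simpa [hφ, hω'] using h2
  have hSA : ∀ y ∈ S, (y : L) ∈ A := by
    intro y hy
    rw [hAS]
    exact Algebra.subset_adjoin hy
  choose! m0 hm0 using hmem
  set D : ℕ := m0 1 + ∑ y ∈ S, ∑ l, m0 (y * ω' l) with hD
  have h1D : (1 : L) ∈ LinearMap.range (Phi φ ω' D) :=
    range_mono (by omega) (hm0 1 A.one_mem)
  have hyD : ∀ y ∈ Y, ∀ l, y * ω' l ∈ LinearMap.range (Phi φ ω' D) := by
    intro y hy l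
    rw [← hS] at hy
    induction hy using Submodule.span_induction with
    | mem y hy =>
      have h2 : m0 (y * ω' l) ≤ ∑ y ∈ S, ∑ l, m0 (y * ω' l) := by
        refine (Finset.single_le_sum (f := fun l => m0 (y * ω' l)) (fun _ _ => Nat.zero_le _)
          (Finset.mem_univ l)).trans ?_
        exact Finset.single_le_sum (f := fun y => ∑ l, m0 (y * ω' l)) (fun _ _ => Nat.zero_le _) hy
      exact range_mono (by omega) (hm0 _ (A.mul_mem (hSA y hy) (ω l).2))
    | zero => rw [zero_mul]; exact Submodule.zero_mem _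
    | add y z _ _ h3 h4 => rw [add_mul]; exact Submodule.add_mem _ h3 h4
    | smul c y _ h3 => rw [smul_mul_assoc]; exact Submodule.smul_mem _ _ h3
  have hpow : ∀ t : ℕ, Y ^ t ≤ LinearMap.range (Phi φ ω' (D * (t + 1))) := by
    intro t
    induction t with
    | zero =>
      rw [pow_zero, Submodule.one_le, zero_add, mul_one]
      exact h1D
    | succ t ih =>
      rw [pow_succ, Submodule.mul_le]
      intro a ha y hy
      have h2 := range_mul (ih ha) (hyD y hy)
      have h3 : D * (t + 1) + D = D * (t + 1 + 1) := by ring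
      rwa [h3] at h2
  refine ⟨(n : ℝ) * ((D : ℝ) + 1) ^ s, by positivity, fun t => ?_⟩
  have h2 : Module.finrank K (Y ^ t : Submodule K L) ≤ n * (D * (t + 1) + 1) ^ s :=
    (Submodule.finrank_mono (hpow t)).trans (finrank_range φ ω' _)
  have h3 : ((Module.finrank K (Y ^ t : Submodule K L) : ℕ) : ℝ) ≤
      (n : ℝ) * ((D : ℝ) * ((t : ℝ) + 1) + 1) ^ s := by exact_mod_cast h2
  refine h3.trans ?_
  rw [mul_assoc]
  refine mul_le_mul_of_nonneg_left ?_ (by positivity)
  have ht : (1 : ℝ) ≤ (t : ℝ) + 1 := by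
    have : (0 : ℝ) ≤ t := Nat.cast_nonneg t
    linarith
  calc ((D : ℝ) * ((t : ℝ) + 1) + 1) ^ s ≤ (((D : ℝ) + 1) * ((t : ℝ) + 1)) ^ s := by
        apply pow_le_pow_left₀ (by positivity)
        nlinarith
    _ = ((D : ℝ) + 1) ^ s * ((t : ℝ) + 1) ^ s := mul_pow _ _ _
    _ ≤ ((D : ℝ) + 1) ^ s * ((t : ℝ) + 1) ^ d := by
        refine mul_le_mul_of_nonneg_left (pow_le_pow_right₀ ht hsd) (by positivity)

end Pool.Agent.Helper98.GO
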